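import Pool.Agent.TH133.SH.PrimeMain

/-!
# MP_bde085_nt: at prime levels the matrices with lower left entry `N` suffice

Let `N` be a prime or the square of a prime.

* The question for these levels is equivalent to a bound `C N ^ κ` for the coordinates of `H(γ)` for
  the matrices `γ` with lower left entry `N`, that is, for the modular symbols `{∞, a / N}`.
* With the same constants `κ` and `C`, this bound is equivalent to the bound
  `C N ^ κ (1 + log₂ (|c| / N))` for all `γ ∈ Γ₀(N)` with lower left entry `c ≠ 0`.
-/

namespace Pool.Agent.Results.MP_bde085_nt.PrimeLevels

open Pool.Agent.TH133.SH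

/-- **For levels which are a prime or the square of a prime, the polynomial bound for the Shimura map
holds if it holds for the matrices with lower left entry `N`, with the same constants up to the
logarithm of the matrix.** -/
theorem result :
    (QuestionAtPrimes ↔ ∃ κ : ℝ, 0 < κ ∧ ∃ C : ℝ, 0 < C ∧ SymbolBound κ C) ∧
      ∀ κ C : ℝ, SymbolBound κ C ↔ GrowthBound κ C :=
  prime_levels

end Pool.Agent.Results.MP_bde085_nt.PrimeLevels
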