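import Pool.Agent.TH133.SH.GenMain

/-!
# MP_bde085_nt: small lower left entries suffice, and logarithmic growth

The following statements are equivalent (`ω(N)` is the number of primes which divide `N`).

1. There are constants `κ`, `C` such that the coordinates `m(γ)`, `n(γ)` are at most `C N ^ κ` for
   all newforms of all levels `N` and all `γ ∈ Γ₀(N)` with entries at most `N ^ 2` (this is the
   question Q1, which is known to be equivalent to Szpiro's conjecture).
2. The same for the `γ ∈ Γ₀(N)` with lower left entry at most `17 * 64 ^ ω(N) * N`, which is
   `N ^ (1 + o(1))`.
3. The same with entries at most `N ^ A`, for every `A` (with constants which depend on `A`).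
4. There are constants `κ`, `C` such that the coordinates `m(γ)`, `n(γ)` are at most
   `C N ^ κ (1 + log |c|)` for all newforms of all levels `N` and ALL `γ ∈ Γ₀(N)` with lower left
   entry `c ≠ 0`.

No hypothesis is made: the series, the Shimura map and the lattice are those of the problem.
-/

namespace Pool.Agent.Results.MP_bde085_nt.SmallLowerLeftEntries

open Pool.Agent.TH133.SH

/-- **The polynomial bound for the Shimura map on matrices with entries at most `N ^ 2` is equivalent
to the bound for the matrices with lower left entry `N ^ (1 + o(1))`, and to a bound for all matrices
with logarithmic growth in the matrix.** -/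
theorem result : List.TFAE [EntriesAtMost 2, SmallLowerLeft, ∀ A : ℕ, EntriesAtMost A,
    LogarithmicGrowth] :=
  shimura_tfae_small

end Pool.Agent.Results.MP_bde085_nt.SmallLowerLeftEntries
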